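import Pool.Agent.Helper11.PV.St

/-!
Project PV (MP_e12aa9_pr), module LSI: the logarithmic Sobolev inequality on the biased cube.
-/

set_option autoImplicit false

namespace Pool.Agent.Helper15.PV

open Finset Pool.Agent.Helper82.CN Pool.Agent.Helper11.PV

private lemma xlog (X m : ℝ) (hX : 0 ≤ X) (hm : 0 < m) :
    X * Real.log X - X * Real.log m ≤ X * (X / m - 1) := by
  rcases hX.eq_or_lt with h0 | h0
  · rw [← h0]; simp
  · have h1 : Real.log (X / m) ≤ X / m - 1 := Real.log_le_sub_one_of_pos (div_pos h0 hm)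
    rw [Real.log_div h0.ne' hm.ne'] at h1
    have h2 := mul_le_mul_of_nonneg_left h1 hX
    linarith

private lemma two_point (p a b : ℝ) (hp : 0 < p) (hp1 : p < 1) :
    (1 - p) * (a ^ 2 * Real.log (a ^ 2)) + p * (b ^ 2 * Real.log (b ^ 2)) -
      ((1 - p) * a ^ 2 + p * b ^ 2) * Real.log ((1 - p) * a ^ 2 + p * b ^ 2) ≤
      2 * (a - b) ^ 2 := by
  have hq : 0 < 1 - p := by linarith
  set m : ℝ := (1 - p) * a ^ 2 + p * b ^ 2 with hm
  have hm0 : 0 ≤ m := by positivity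
  rcases hm0.eq_or_lt with h0 | h0
  · have ha : a ^ 2 = 0 := by
      have h1 : 0 ≤ (1 - p) * a ^ 2 := by positivity
      have h2 : 0 ≤ p * b ^ 2 := by positivity
      have h3 : (1 - p) * a ^ 2 = 0 := by linarith
      rcases mul_eq_zero.1 h3 with h4 | h4
      · linarith
      · exact h4
    have hb : b ^ 2 = 0 := by
      have h2 : p * b ^ 2 = 0 := by rw [ha] at hm; linarith
      rcases mul_eq_zero.1 h2 with h4 | h4
      · linarith
      · exact h4
    rw [← h0, ha, hb]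
    simp
    positivity
  · have h1 := xlog (a ^ 2) m (sq_nonneg a) h0
    have h2 := xlog (b ^ 2) m (sq_nonneg b) h0
    have h3 := mul_le_mul_of_nonneg_left h1 hq.le
    have h4 := mul_le_mul_of_nonneg_left h2 hp.le
    have h5 : (1 - p) * (a ^ 2 * (a ^ 2 / m - 1)) + p * (b ^ 2 * (b ^ 2 / m - 1)) =
        p * (1 - p) * (a ^ 2 - b ^ 2) ^ 2 / m := by
      have h6 : (1 - p) * (a ^ 2 * (a ^ 2 / m - 1)) + p * (b ^ 2 * (b ^ 2 / m - 1)) =
          ((1 - p) * (a ^ 2) ^ 2 + p * (b ^ 2) ^ 2 -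
            ((1 - p) * a ^ 2 + p * b ^ 2) * m) / m := by
        field_simp
        ring
      rw [h6, ← hm]
      congr 1
      rw [hm]
      ring
    have h6 : p * (1 - p) * (a ^ 2 - b ^ 2) ^ 2 / m ≤ 2 * (a - b) ^ 2 := by
      rw [div_le_iff₀ h0]
      have h7 : (a ^ 2 - b ^ 2) ^ 2 = (a - b) ^ 2 * (a + b) ^ 2 := by ring
      have h8 : (a + b) ^ 2 ≤ 2 * (a ^ 2 + b ^ 2) := by nlinarith [sq_nonneg (a - b)]
      have h9 : p * (1 - p) * (a ^ 2 + b ^ 2) ≤ m := by
        have e1 : 0 ≤ (1 - p) * (1 - p) * a ^ 2 := by positivity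
        have e2 : 0 ≤ p * p * b ^ 2 := by positivity
        nlinarith
      rw [h7]
      calc p * (1 - p) * ((a - b) ^ 2 * (a + b) ^ 2)
          ≤ p * (1 - p) * ((a - b) ^ 2 * (2 * (a ^ 2 + b ^ 2))) := by
            gcongr
        _ = 2 * (a - b) ^ 2 * (p * (1 - p) * (a ^ 2 + b ^ 2)) := by ring
        _ ≤ 2 * (a - b) ^ 2 * m := mul_le_mul_of_nonneg_left h9 (by positivity)
    have h7 : m * Real.log m = (1 - p) * (a ^ 2 * Real.log m) + p * (b ^ 2 * Real.log m) := by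
      conv_lhs => rw [hm]
      rw [← hm]
      ring
    rw [h7]
    nlinarith

theorem tLSI : Pool.Agent.Helper11.PV.StLSI := by
  intro p N F hp hp1
  have hq : 0 < 1 - p := by linarith
  induction N with
  | zero =>
    rw [EE_zero, EE_zero]
    simp
  | succ N ih =>
    set F0 : (Fin N → Bool) → ℝ := fun ω => F (Fin.cons false ω) with hF0
    set F1 : (Fin N → Bool) → ℝ := fun ω => F (Fin.cons true ω) with hF1
    have i0 := ih F0
    have i1 := ih F1
    set m0 : ℝ := EE p (fun ω => F0 ω ^ 2) with hm0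
    set m1 : ℝ := EE p (fun ω => F1 ω ^ 2) with hm1
    have hm0n : 0 ≤ m0 := EE_nonneg hp.le hp1.le fun ω => sq_nonneg _
    have hm1n : 0 ≤ m1 := EE_nonneg hp.le hp1.le fun ω => sq_nonneg _
    have e1 : EE p (fun ω => F ω ^ 2 * Real.log (F ω ^ 2)) =
        (1 - p) * EE p (fun ω => F0 ω ^ 2 * Real.log (F0 ω ^ 2)) +
          p * EE p (fun ω => F1 ω ^ 2 * Real.log (F1 ω ^ 2)) := EE_succ p _
    have e2 : EE p (fun ω => F ω ^ 2) = (1 - p) * m0 + p * m1 := EE_succ p _
    have e3 : ∀ i : Fin N, EE p (fun ω => DD F i.succ ω ^ 2) =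
        (1 - p) * EE p (fun ω => DD F0 i ω ^ 2) + p * EE p (fun ω => DD F1 i ω ^ 2) := by
      intro i
      rw [EE_succ]
      simp only [DD_succ]
      rfl
    have e4 : EE p (fun ω => DD F 0 ω ^ 2) = EE p (fun ω => (F1 ω - F0 ω) ^ 2) := by
      rw [EE_succ]
      simp only [DD_zero]
      ring
    have e5 : EE p (fun ω => (F1 ω - F0 ω) ^ 2) = m1 - 2 * EE p (fun ω => F0 ω * F1 ω) + m0 := by
      rw [hm0, hm1, ← EE_mul_left, ← EE_sub, ← EE_add]
      congr 1
      funext ω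
      ring
    have e6 : EE p (fun ω => F0 ω * F1 ω) ≤ √m0 * √m1 := by
      rw [← Real.sqrt_mul hm0n]
      exact (le_abs_self _).trans (Real.abs_le_sqrt (EE_cs hp.le hp1.le F0 F1))
    have e7 := two_point p (√m0) (√m1) hp hp1
    rw [Real.sq_sqrt hm0n, Real.sq_sqrt hm1n] at e7
    have e8 : (√m0 - √m1) ^ 2 = m0 - 2 * (√m0 * √m1) + m1 := by
      have h1 := Real.sq_sqrt hm0n
      have h2 := Real.sq_sqrt hm1n
      nlinarith
    rw [Fin.sum_univ_succ, e4]
    have e9 : ∑ i : Fin N, EE p (fun ω => DD F i.succ ω ^ 2) =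
        (1 - p) * ∑ i, EE p (fun ω => DD F0 i ω ^ 2) +
          p * ∑ i, EE p (fun ω => DD F1 i ω ^ 2) := by
      rw [Finset.mul_sum, Finset.mul_sum, ← Finset.sum_add_distrib]
      exact Finset.sum_congr rfl fun i _ => e3 i
    rw [e9, e1, e2, e5]
    have j0 := mul_le_mul_of_nonneg_left i0 hq.le
    have j1 := mul_le_mul_of_nonneg_left i1 hp.le
    nlinarith

end Pool.Agent.Helper15.PV
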