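import Mathlib
import Pool.Agent.Helper61.PV.St

/-!
# Project PV, module Cor (one class modulo `W`)
-/

set_option autoImplicit false

namespace Pool.Agent.Helper15.PV

open Pool.Agent.Helper61.PV Finset

theorem cor_ev {d : ℕ} (c : Fin (d + 1) → ℤ) (W m m' : ℤ) (h : W ∣ m - m') :
    W ∣ ev c m - ev c m' := by
  unfold ev
  rw [← sum_sub_distrib]
  refine dvd_sum fun i _ => ?_
  rw [← mul_sub]
  exact Dvd.dvd.mul_left (h.trans (sub_dvd_pow_sub_pow m m' _)) _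

theorem cor_cop (W : ℕ) (x y : ℤ) (h : (W : ℤ) ∣ x - y) (hy : Nat.Coprime y.natAbs W) :
    Nat.Coprime x.natAbs W := by
  have h1 : IsCoprime y (W : ℤ) := by
    rw [Int.isCoprime_iff_gcd_eq_one, Int.gcd, Int.natAbs_natCast]
    exact hy
  obtain ⟨k, hk⟩ := h
  have e : x = y + W * k := by linarith
  have h2 : IsCoprime x (W : ℤ) := by
    rw [e]; exact h1.add_mul_left_left k
  rw [Int.isCoprime_iff_gcd_eq_one, Int.gcd, Int.natAbs_natCast] at h2
  exact h2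

theorem cor_thz0 (x : ℤ) : 0 ≤ thz x := by
  unfold thz Pool.Agent.Helper48.BK.th
  split_ifs
  · exact Real.log_natCast_nonneg _
  · exact le_rfl

theorem cor_thzp (x : ℤ) (h : ¬ x.toNat.Prime) : thz x = 0 := by
  unfold thz Pool.Agent.Helper48.BK.th
  rw [if_neg h]

theorem cor_thz (x : ℤ) (M B : ℝ) (hx : (x : ℝ) ≤ M) (hB : Real.log M ≤ B) (hB0 : 0 ≤ B) :
    thz x ≤ B := by
  unfold thz Pool.Agent.Helper48.BK.th
  split_ifs with h
  · have h2 := h.two_le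
    have h3 : 0 < x := by omega
    have h4 : ((x.toNat : ℕ) : ℝ) = (x : ℝ) := by
      have : ((x.toNat : ℕ) : ℤ) = x := Int.toNat_of_nonneg h3.le
      calc ((x.toNat : ℕ) : ℝ) = (((x.toNat : ℕ) : ℤ) : ℝ) := by push_cast; rfl
        _ = (x : ℝ) := by rw [this]
    rw [h4]
    exact (Real.log_le_log (by exact_mod_cast h3) hx).trans hB
  · exact hB0

theorem cor_n0 (a W m₀ : ℕ) (hW : 1 ≤ W) :
    ∃ n₀ : ℕ, a ≤ n₀ ∧ n₀ < a + W ∧ (W : ℤ) ∣ (n₀ : ℤ) - m₀ := by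
  have hW0 : (0 : ℤ) < W := by exact_mod_cast hW
  have h1 := Int.emod_nonneg ((m₀ : ℤ) - a) hW0.ne'
  have h2 := Int.emod_lt_of_pos ((m₀ : ℤ) - a) hW0
  obtain ⟨r, hr⟩ : ∃ r : ℕ, (r : ℤ) = ((m₀ : ℤ) - a) % W := ⟨_, Int.toNat_of_nonneg h1⟩
  refine ⟨a + r, by omega, by omega, ?_⟩
  have h3 := Int.emod_add_mul_ediv ((m₀ : ℤ) - a) W
  refine ⟨-(((m₀ : ℤ) - a) / W), ?_⟩
  push_cast
  rw [hr]
  linarith

/-- size of the values for the polynomials of the box -/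
theorem cor_size (hSiz : StSiz) (W H d : ℕ) (κ : ℝ) (hκ : 0 < κ) (hκ1 : κ < 1) (hW : 1 ≤ W)
    (F A : Fin (d + 1) → ℤ) (h : Fin (d + 1) → ℕ) (hC : Cond W H κ F A h)
    (g : Fin (d + 1) → ℤ) (hg : g ∈ Bx A h) (m : ℕ) (hm : 1 + 8 / κ ≤ m) :
    ((ev (lin W F g) m : ℤ) : ℝ) ≤ 4 * H * (m : ℝ) ^ d := by
  have hg1 : ∀ i, A i ≤ g i ∧ g i < A i + h i := by
    intro i
    have := Fintype.mem_piFinset.1 hg i
    exact Finset.mem_Ico.1 this
  have hW0 : (0 : ℤ) ≤ W := by positivity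
  have hlo : ∀ i, F i + W * A i ≤ lin W F g i := by
    intro i
    unfold lin
    have := mul_le_mul_of_nonneg_left (hg1 i).1 hW0
    linarith
  have hup : ∀ i, lin W F g i ≤ F i + W * (A i + h i - 1) := by
    intro i
    unfold lin
    have h1 : g i ≤ A i + h i - 1 := by have := (hg1 i).2; omega
    have := mul_le_mul_of_nonneg_left h1 hW0
    linarith
  refine (hSiz d m (lin W F g) H κ hκ hκ1.le (by positivity) ?_ ?_ ?_).2
  · intro i
    have h1 := (hC.2.2.1 i).1.trans (hlo i)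
    have h2 := (hup i).trans (hC.2.2.1 i).2
    have h3 : -(H : ℝ) ≤ (lin W F g i : ℝ) := by exact_mod_cast h1
    have h4 : (lin W F g i : ℝ) ≤ (H : ℝ) := by exact_mod_cast h2
    have h5 : (0 : ℝ) ≤ H := by positivity
    rw [abs_le]
    constructor <;> linarith
  · refine hC.2.2.2.trans ?_
    exact_mod_cast hlo (Fin.last d)
  · have : 4 / κ ≤ 8 / κ := by
      rw [div_le_div_iff₀ hκ hκ]; nlinarith
    linarith

theorem hCor (hMom : StMom) (hRho : StRho) (hNuc : StNuc) (hSiz : StSiz) (hVar : StVar)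
    (hCar : StCar) : StCor := by
  intro η₁ hη₁
  obtain ⟨η, hη⟩ : ∃ η : ℝ, η = min η₁ (1 / 2) := ⟨_, rfl⟩
  have hη0 : 0 < η := by rw [hη]; exact lt_min hη₁ (by norm_num)
  have hηh : η ≤ 1 / 2 := by rw [hη]; exact min_le_right _ _
  have hηη : η ≤ η₁ := by rw [hη]; exact min_le_left _ _
  obtain ⟨w, hw⟩ : ∃ w : ℕ, w = ⌈32 / η⌉₊ := ⟨_, rfl⟩
  have hw1 : 32 / η ≤ w := by rw [hw]; exact Nat.le_ceil _
  have hw0 : (0 : ℝ) < w := lt_of_lt_of_le (by positivity) hw1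
  have hwn : 1 ≤ w := by exact_mod_cast hw0
  have hwi : 1 / (w : ℝ) ≤ η / 32 := by
    rw [div_le_div_iff₀ hw0 (by norm_num)]
    rw [div_le_iff₀ hη0] at hw1
    linarith
  obtain ⟨W, hWdef⟩ : ∃ W : ℕ, W = w.factorial := ⟨_, rfl⟩
  have hW1 : 1 ≤ W := by rw [hWdef]; exact Nat.factorial_pos w
  refine ⟨W, hW1, fun κ hκ hκ1 => ?_⟩
  obtain ⟨δ, hδ⟩ : ∃ δ : ℝ, δ = η / 64 := ⟨_, rfl⟩
  have hδ0 : 0 < δ := by rw [hδ]; positivity
  have hδ1 : δ < 1 := by rw [hδ]; linarith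
  obtain ⟨a, ha⟩ : ∃ a : ℕ, a = ⌈1 + 8 / κ⌉₊ := ⟨_, rfl⟩
  have ha1 : 1 + 8 / κ ≤ a := by rw [ha]; exact Nat.le_ceil _
  obtain ⟨C, H₁, hC0, hN⟩ := hNuc W (a + W) η hW1 hη0
  obtain ⟨H₂, hM⟩ := hMom W C κ δ hW1 hC0 hκ hκ1 hδ0 hδ1
  refine ⟨C, max H₁ H₂, hC0, fun H hH d hd hdH F A h hCond hm₀ => ?_⟩
  obtain ⟨m₀, hm₀⟩ := hm₀
  obtain ⟨J, hJ1, hJC, hJL⟩ := hN H (le_trans (le_max_left _ _) hH) d hd
  obtain ⟨hM1, hM2⟩ := hM H (le_trans (le_max_right _ _) hH) d hd hdH F A h hCond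
  obtain ⟨n₀, hn1, hn2, hn3⟩ := cor_n0 a W m₀ hW1
  obtain ⟨mm, hmm⟩ : ∃ mm : ℕ → ℕ, ∀ j, mm j = n₀ + W * j := ⟨_, fun _ => rfl⟩
  -- basic facts on the `m_j`
  have hmlo : ∀ j, 1 + 8 / κ ≤ (mm j : ℝ) := by
    intro j
    refine ha1.trans ?_
    have : a ≤ mm j := by rw [hmm]; exact le_trans hn1 (Nat.le_add_right _ _)
    exact_mod_cast this
  have hmup : ∀ j < J, mm j ≤ a + W + W * J := by
    intro j hj
    rw [hmm]
    have := Nat.mul_le_mul_left W hj.le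
    omega
  have hmC : ∀ j < J, (mm j : ℝ) ≤ C * Sz H d := by
    intro j hj
    refine le_trans ?_ hJC
    exact_mod_cast hmup j hj
  have hmcop : ∀ j, Nat.Coprime (ev F (mm j)).natAbs W := by
    intro j
    refine cor_cop W _ _ (cor_ev F W (mm j) m₀ ?_) hm₀
    rw [hmm]
    push_cast
    have e : (n₀ : ℤ) + W * j - m₀ = ((n₀ : ℤ) - m₀) + W * j := by ring
    rw [e]
    exact dvd_add hn3 (dvd_mul_right _ _)
  -- the factor `φ(W)/W`
  have hWr : (0 : ℝ) < W := by exact_mod_cast hW1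
  have hφ : (0 : ℝ) < Nat.totient W := by exact_mod_cast Nat.totient_pos.2 hW1
  have hφW : (Nat.totient W : ℝ) ≤ W := by exact_mod_cast Nat.totient_le W
  obtain ⟨qq, hqq⟩ : ∃ qq : ℝ, qq = (Nat.totient W : ℝ) / W := ⟨_, rfl⟩
  obtain ⟨uu, huu⟩ : ∃ uu : ℝ, uu = (W : ℝ) / Nat.totient W := ⟨_, rfl⟩
  have hqu : qq * uu = 1 := by rw [hqq, huu]; field_simp
  have hq0 : 0 < qq := by rw [hqq]; positivity
  have hq1 : qq ≤ 1 := by rw [hqq, div_le_one hWr]; exact hφW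
  rw [← huu] at hM1 hM2
  have hcard : ((#(Bx A h) : ℕ) : ℝ) = ∏ i, (h i : ℝ) := by
    rw [(hCar d A h).1]; push_cast; rfl
  have hcard0 : 0 ≤ ∏ i, (h i : ℝ) := prod_nonneg fun i _ => Nat.cast_nonneg _
  have hJ0 : (0 : ℝ) < J := by exact_mod_cast hJ1
  -- size
  have hthz : ∀ j < J, ∀ g ∈ Bx A h, thz (ev (lin W F g) (mm j)) ≤ η / 16 * J := by
    intro j hj g hg
    refine cor_thz _ (4 * H * ((a + W + W * J : ℕ) : ℝ) ^ d) _ ?_ hJL (by positivity)
    refine (cor_size hSiz W H d κ hκ hκ1 hW1 F A h hCond g hg (mm j) (hmlo j)).trans ?_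
    refine mul_le_mul_of_nonneg_left ?_ (by positivity)
    refine pow_le_pow_left₀ (Nat.cast_nonneg _) ?_ d
    exact_mod_cast hmup j hj
  obtain ⟨e, he⟩ : ∃ e : ℝ, e = Real.exp (1 / w) := ⟨_, rfl⟩
  have he0 : 0 ≤ e := by rw [he]; exact (Real.exp_pos _).le
  have he1 : e ≤ 1 + η / 16 := by
    have h1 : (0 : ℝ) ≤ 1 / w := by positivity
    have h2 := Real.abs_exp_sub_one_le (x := 1 / (w : ℝ)) (by
      rw [abs_of_nonneg h1]; linarith)
    rw [abs_of_nonneg h1] at h2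
    have h3 := (abs_le.1 h2).2
    rw [he]
    linarith
  have hV := hVar d (Bx A h) (fun j g => qq * thz (ev (lin W F g) (mm j))) J η δ e
    (fun k => qq * (((W * (W * k) : ℕ) : ℝ) / Nat.totient (W * (W * k)))) hJ1 hη0.le hδ0.le he0
    ?_ ?_ ?_ ?_
  · have hfin : Finite {g : Fin (d + 1) → ℤ // g ∈ Bx A h ∧
        ∀ j < J, (fun j g => qq * thz (ev (lin W F g) (mm j))) j g = 0} :=
      Finite.of_injective (fun x => (⟨x.1, x.2.1⟩ : {g : Fin (d + 1) → ℤ // g ∈ Bx A h}))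
        (fun x y hxy => by
          have := congrArg Subtype.val hxy
          exact Subtype.ext this)
    have hinj : Nat.card {g : Fin (d + 1) → ℤ // g ∈ Bx A h ∧ ∀ m : ℕ, 1 + 8 / κ ≤ m →
        (m : ℝ) ≤ C * Sz H d → ¬ (ev (lin W F g) m).toNat.Prime} ≤
        Nat.card {g : Fin (d + 1) → ℤ // g ∈ Bx A h ∧
        ∀ j < J, (fun j g => qq * thz (ev (lin W F g) (mm j))) j g = 0} := by
      refine Nat.card_le_card_of_injective (fun x => ⟨x.1, x.2.1, fun j hj => ?_⟩) ?_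
      · have h1 := x.2.2 (mm j) (hmlo j) (hmC j hj)
        show qq * thz (ev (lin W F x.1) (mm j)) = 0
        rw [cor_thzp _ h1, mul_zero]
      · intro x y hxy
        have := congrArg Subtype.val hxy
        exact Subtype.ext this
    have h1 : (Nat.card {g : Fin (d + 1) → ℤ // g ∈ Bx A h ∧ ∀ m : ℕ, 1 + 8 / κ ≤ m →
        (m : ℝ) ≤ C * Sz H d → ¬ (ev (lin W F g) m).toNat.Prime} : ℝ) ≤
        (η / 8 + (1 + δ) * e - 1 + 2 * δ) * #(Bx A h) := le_trans (by exact_mod_cast hinj) hV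
    refine h1.trans ?_
    rw [hcard]
    refine mul_le_mul_of_nonneg_right ?_ hcard0
    have h2 : (1 + δ) * e ≤ (1 + δ) * (1 + η / 16) :=
      mul_le_mul_of_nonneg_left he1 (by linarith)
    rw [hδ] at h2 ⊢
    nlinarith
  · -- first moment
    intro j hj
    rw [hcard, ← mul_sum]
    have h1 := (hM1 (mm j) (hmlo j) (hmC j hj) (hmcop j)).1
    calc (1 - δ) * ∏ i, (h i : ℝ) = qq * ((1 - δ) * uu * ∏ i, (h i : ℝ)) := by
          linear_combination -(1 - δ) * (∏ i, (h i : ℝ)) * hqu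
      _ ≤ _ := mul_le_mul_of_nonneg_left h1 hq0.le
  · -- squares
    intro j hj
    rw [hcard]
    have h1 := (hM1 (mm j) (hmlo j) (hmC j hj) (hmcop j)).2
    calc ∑ g ∈ Bx A h, (qq * thz (ev (lin W F g) (mm j))) ^ 2
        ≤ ∑ g ∈ Bx A h, qq * (η / 16 * J) * (qq * thz (ev (lin W F g) (mm j))) := by
          refine sum_le_sum fun g hg => ?_
          have h2 := hthz j hj g hg
          have h3 := cor_thz0 (ev (lin W F g) (mm j))
          have h4 : qq * thz (ev (lin W F g) (mm j)) ≤ qq * (η / 16 * J) :=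
            mul_le_mul_of_nonneg_left h2 hq0.le
          rw [sq]
          exact mul_le_mul_of_nonneg_right h4 (mul_nonneg hq0.le h3)
      _ = qq * (η / 16 * J) * (qq * ∑ g ∈ Bx A h, thz (ev (lin W F g) (mm j))) := by
          rw [← mul_sum, ← mul_sum]
      _ ≤ qq * (η / 16 * J) * (qq * ((1 + δ) * uu * ∏ i, (h i : ℝ))) :=
          mul_le_mul_of_nonneg_left (mul_le_mul_of_nonneg_left h1 hq0.le) (by positivity)
      _ = qq * (η / 16 * J) * ((1 + δ) * ∏ i, (h i : ℝ)) := by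
          linear_combination qq * (η / 16 * J) * (1 + δ) * (∏ i, (h i : ℝ)) * hqu
      _ ≤ 1 * (η / 16 * J) * (2 * ∏ i, (h i : ℝ)) := by
          refine mul_le_mul (mul_le_mul_of_nonneg_right hq1 (by positivity))
            (mul_le_mul_of_nonneg_right (by linarith) hcard0) (by positivity) (by positivity)
      _ = η / 8 * J * ∏ i, (h i : ℝ) := by ring
  · -- pairs
    intro i j hij hj
    rw [hcard]
    have hlt : mm i < mm j := by
      rw [hmm, hmm]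
      have := Nat.mul_lt_mul_of_pos_left hij hW1
      omega
    have h1 := hM2 (mm i) (mm j) (hmlo i) hlt (hmC j hj)
    have hdiff : mm j - mm i = W * (j - i) := by
      rw [hmm, hmm, Nat.mul_sub]
      have := Nat.mul_le_mul_left W hij.le
      omega
    rw [hdiff] at h1
    obtain ⟨rr, hrr⟩ : ∃ rr : ℝ, rr = ((W * (W * (j - i)) : ℕ) : ℝ) /
      Nat.totient (W * (W * (j - i))) := ⟨_, rfl⟩
    rw [← hrr] at h1
    show ∑ g ∈ Bx A h, qq * thz (ev (lin W F g) (mm i)) * (qq * thz (ev (lin W F g) (mm j))) ≤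
      (1 + δ) * (qq * (((W * (W * (j - i)) : ℕ) : ℝ) / Nat.totient (W * (W * (j - i))))) *
        ∏ i, (h i : ℝ)
    rw [← hrr]
    calc ∑ g ∈ Bx A h, qq * thz (ev (lin W F g) (mm i)) * (qq * thz (ev (lin W F g) (mm j)))
        = qq * (qq * ∑ g ∈ Bx A h, thz (ev (lin W F g) (mm i)) * thz (ev (lin W F g) (mm j))) := by
          rw [mul_sum, mul_sum]
          exact sum_congr rfl fun g _ => by ring
      _ ≤ qq * (qq * ((1 + δ) * uu * rr * ∏ i, (h i : ℝ))) :=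
          mul_le_mul_of_nonneg_left (mul_le_mul_of_nonneg_left h1 hq0.le) hq0.le
      _ = (1 + δ) * (qq * rr) * ∏ i, (h i : ℝ) := by
          linear_combination qq * (1 + δ) * rr * (∏ i, (h i : ℝ)) * hqu
  · -- average of rho
    intro K
    have h1 := hRho w W K hwn hW1 (fun p hp hpw => by
      rw [hWdef]; exact Nat.dvd_factorial hp.pos hpw)
    rw [← mul_sum, he]
    rw [← huu] at h1
    calc qq * ∑ k ∈ Icc 1 K, (((W * (W * k) : ℕ) : ℝ) / Nat.totient (W * (W * k)))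
        ≤ qq * (Real.exp (1 / w) * K * uu) := mul_le_mul_of_nonneg_left h1 hq0.le
      _ = Real.exp (1 / w) * K := by
          linear_combination Real.exp (1 / w) * K * hqu

end Pool.Agent.Helper15.PV
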